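import Mathlib

/-!
# MP_3ea013_an: ideals of stable normed algebras need not be stable

The algebra is `ℂ × ℂ` (coordinatewise operations) with the norm `|x| + |x - y|`; the ideal is
`ℂ × 0`, whose identity `(1, 0)` has norm `2`.
-/

namespace Pool.Agent.Results.MP_3ea013_an.IdealNotStable

/-- `I`, with the norm and product of `A`, is left stable: if `a ∈ I`, `M > 0` and
`‖a b‖ ≤ M ‖b‖` for all `b ∈ I`, then `‖a‖ ≤ M`. -/
def LeftStableOn {A : Type*} [NonUnitalNormedRing A] (I : Set A) : Prop :=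
  ∀ a ∈ I, ∀ M : ℝ, 0 < M → (∀ b ∈ I, ‖a * b‖ ≤ M * ‖b‖) → ‖a‖ ≤ M

/-- `I`, with the norm and product of `A`, is right stable: if `a ∈ I`, `M > 0` and
`‖b a‖ ≤ M ‖b‖` for all `b ∈ I`, then `‖a‖ ≤ M`. -/
def RightStableOn {A : Type*} [NonUnitalNormedRing A] (I : Set A) : Prop :=
  ∀ a ∈ I, ∀ M : ℝ, 0 < M → (∀ b ∈ I, ‖b * a‖ ≤ M * ‖b‖) → ‖a‖ ≤ M

/-- The norm `|x| + |x - y|` on `ℂ × ℂ`. -/
noncomputable def nrm : RingNorm (ℂ × ℂ) where
  toFun p := ‖p.1‖ + ‖p.1 - p.2‖
  map_zero' := by simp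
  add_le' p q := by
    have h1 := norm_add_le p.1 q.1
    have h2 : ‖(p + q).1 - (p + q).2‖ ≤ ‖p.1 - p.2‖ + ‖q.1 - q.2‖ := by
      have : (p + q).1 - (p + q).2 = (p.1 - p.2) + (q.1 - q.2) := by
        simp only [Prod.fst_add, Prod.snd_add]; ring
      rw [this]; exact norm_add_le _ _
    have h3 : ‖(p + q).1‖ ≤ ‖p.1‖ + ‖q.1‖ := h1
    linarith
  neg' p := by
    have h : ‖(-p).1 - (-p).2‖ = ‖p.1 - p.2‖ := by
      have : (-p).1 - (-p).2 = -(p.1 - p.2) := by
        simp only [Prod.fst_neg, Prod.snd_neg]; ring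
      rw [this, norm_neg]
    rw [h, Prod.fst_neg, norm_neg]
  mul_le' p q := by
    have e : (p * q).1 - (p * q).2 = p.1 * (q.1 - q.2) + (p.1 - p.2) * q.2 := by
      simp only [Prod.fst_mul, Prod.snd_mul]; ring
    have h1 : ‖(p * q).1 - (p * q).2‖ ≤ ‖p.1‖ * ‖q.1 - q.2‖ + ‖p.1 - p.2‖ * ‖q.2‖ := by
      rw [e]
      refine (norm_add_le _ _).trans ?_
      rw [norm_mul, norm_mul]
    have h2 : ‖q.2‖ ≤ ‖q.1‖ + ‖q.1 - q.2‖ := by
      have : q.2 = q.1 - (q.1 - q.2) := by ring
      calc ‖q.2‖ = ‖q.1 - (q.1 - q.2)‖ := by rw [← this]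
        _ ≤ _ := norm_sub_le _ _
    have h3 : ‖(p * q).1‖ = ‖p.1‖ * ‖q.1‖ := by rw [Prod.fst_mul, norm_mul]
    have h4 := mul_le_mul_of_nonneg_left h2 (norm_nonneg (p.1 - p.2))
    rw [h3]
    nlinarith [norm_nonneg p.1, norm_nonneg (p.1 - p.2), norm_nonneg q.1,
      norm_nonneg (q.1 - q.2)]
  eq_zero_of_map_eq_zero' p h := by
    have h1 : ‖p.1‖ = 0 := by
      have := norm_nonneg p.1
      have := norm_nonneg (p.1 - p.2)
      change ‖p.1‖ + ‖p.1 - p.2‖ = 0 at h
      linarith
    have h2 : ‖p.1 - p.2‖ = 0 := by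
      change ‖p.1‖ + ‖p.1 - p.2‖ = 0 at h
      linarith
    have h1' := norm_eq_zero.1 h1
    have h2' := norm_eq_zero.1 h2
    rw [h1'] at h2'
    ext1
    · simpa using h1'
    · simpa using h2'

/-- `ℂ × ℂ` with coordinatewise operations, to be normed by `|x| + |x - y|`. -/
def W : Type := ℂ × ℂ

noncomputable instance : CommRing W := inferInstanceAs (CommRing (ℂ × ℂ))

noncomputable instance instNR : NormedCommRing W :=
  { (RingNorm.toNormedRing (R := W) nrm) with mul_comm := mul_comm }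

theorem norm_def (p : W) : ‖p‖ = ‖p.1‖ + ‖p.1 - p.2‖ := rfl

noncomputable instance : Algebra ℂ W := inferInstanceAs (Algebra ℂ (ℂ × ℂ))

noncomputable instance : NormedAlgebra ℂ W where
  norm_smul_le r x := by
    rw [norm_def, norm_def]
    have h1 : (r • x : W).1 = r * x.1 := rfl
    have h2 : (r • x : W).2 = r * x.2 := rfl
    rw [h1, h2, ← mul_sub, norm_mul, norm_mul]
    apply le_of_eq; ring

theorem norm_one' : ‖(1 : W)‖ = 1 := by
  rw [norm_def]
  have h1 : (1 : W).1 = 1 := rfl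
  have h2 : (1 : W).2 = 1 := rfl
  rw [h1, h2]; simp

/-- The idempotent `(1, 0)`. -/
def e : W := ((1, 0) : ℂ × ℂ)

theorem norm_e : ‖e‖ = 2 := by
  rw [norm_def]
  have h1 : e.1 = 1 := rfl
  have h2 : e.2 = 0 := rfl
  rw [h1, h2]; norm_num

theorem e_mul (b : W) (hb : b ∈ Ideal.span {e}) : e * b = b := by
  rw [Ideal.mem_span_singleton'] at hb
  obtain ⟨c, rfl⟩ := hb
  have : e * e = e := by
    change ((1 : ℂ) * 1, (0 : ℂ) * 0) = (1, 0)
    simp
  calc e * (c * e) = c * (e * e) := by ring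
    _ = c * e := by rw [this]

theorem finrank_W : Module.finrank ℂ W = 2 := by
  change Module.finrank ℂ (ℂ × ℂ) = 2
  simp

/-- Ideals of stable normed algebras need not be stable: there are a complex commutative Banach
algebra `A` with identity of norm one, of dimension two and without nonzero nilpotents, which is
left and right stable, and a closed ideal `I` of `A`, having an identity element of its own,
which with the restricted norm is neither left stable nor right stable. -/
theorem result : ∃ (A : Type) (_ : NormedCommRing A) (_ : NormedAlgebra ℂ A) (I : Ideal A),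
    CompleteSpace A ∧ ‖(1 : A)‖ = 1 ∧ Module.finrank ℂ A = 2 ∧ IsReduced A ∧
    LeftStableOn (Set.univ : Set A) ∧ RightStableOn (Set.univ : Set A) ∧
    IsClosed (I : Set A) ∧ (∃ e ∈ I, ∀ b ∈ I, e * b = b) ∧
    ¬ LeftStableOn (I : Set A) ∧ ¬ RightStableOn (I : Set A) := by
  have hfd : FiniteDimensional ℂ W := by
    change FiniteDimensional ℂ (ℂ × ℂ)
    infer_instance
  refine ⟨W, inferInstance, inferInstance, Ideal.span {e}, FiniteDimensional.complete ℂ W,
    norm_one', finrank_W, ?_, ?_, ?_, ?_, ?_, ?_, ?_⟩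
  · change IsReduced (ℂ × ℂ)
    infer_instance
  · intro a _ M _ h
    have := h 1 (Set.mem_univ _)
    rwa [mul_one, norm_one', mul_one] at this
  · intro a _ M _ h
    have := h 1 (Set.mem_univ _)
    rwa [one_mul, norm_one', mul_one] at this
  · exact Submodule.closed_of_finiteDimensional ((Ideal.span {e} : Ideal W).restrictScalars ℂ)
  · exact ⟨e, Ideal.subset_span rfl, e_mul⟩
  · intro h
    have := h e (Ideal.subset_span rfl) 1 one_pos (fun b hb => by rw [e_mul b hb, one_mul])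
    rw [norm_e] at this
    norm_num at this
  · intro h
    have := h e (Ideal.subset_span rfl) 1 one_pos
      (fun b hb => by rw [mul_comm, e_mul b hb, one_mul])
    rw [norm_e] at this
    norm_num at this

end Pool.Agent.Results.MP_3ea013_an.IdealNotStable
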